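import Mathlib

namespace Pool.Agent.Results.MP_966661_co.EvenCount

/-- The triangle `T_n` of hexagonal cells: the pairs `(i, j)` with `i, j ≥ 0` and `i + j ≤ n - 1`. -/
noncomputable def T (n : ℕ) : Finset (ℤ × ℤ) :=
  ((Finset.Icc (0 : ℤ) n) ×ˢ (Finset.Icc (0 : ℤ) n)).filter (fun p => p.1 + p.2 ≤ (n : ℤ) - 1)

lemma mem_T {n : ℕ} {p : ℤ × ℤ} : p ∈ T n ↔ 0 ≤ p.1 ∧ 0 ≤ p.2 ∧ p.1 + p.2 ≤ (n : ℤ) - 1 := by
  simp only [T, Finset.mem_filter, Finset.mem_product, Finset.mem_Icc]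
  constructor
  · rintro ⟨⟨⟨h1, _⟩, h2, _⟩, h3⟩
    exact ⟨h1, h2, h3⟩
  · rintro ⟨h1, h2, h3⟩
    exact ⟨⟨⟨h1, by omega⟩, h2, by omega⟩, h3⟩

/-- The stone `{(i,j), (i+1,j), (i,j+1)}` (a translate of `T_2`). -/
def up (i j : ℤ) : Finset (ℤ × ℤ) := {(i, j), (i + 1, j), (i, j + 1)}

/-- The stone `{(i+1,j), (i,j+1), (i+1,j+1)}` (the rotated one). -/
def down (i j : ℤ) : Finset (ℤ × ℤ) := {(i + 1, j), (i, j + 1), (i + 1, j + 1)}

/-- A stone is a set of cells of one of the two forms. -/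
def IsStone (s : Finset (ℤ × ℤ)) : Prop := ∃ i j : ℤ, s = up i j ∨ s = down i j

/-- A tiling of `T_n` by stones: a finite set `P` of stones contained in `T_n` such that every cell
of `T_n` lies in exactly one member of `P`. -/
structure IsTiling (n : ℕ) (P : Finset (Finset (ℤ × ℤ))) : Prop where
  stone : ∀ s ∈ P, IsStone s
  sub : ∀ s ∈ P, s ⊆ T n
  cover : ∀ c ∈ T n, ∃! s, s ∈ P ∧ c ∈ s

/-- The number `N(n)` of tilings of `T_n` by stones. -/
noncomputable def N (n : ℕ) : ℕ := Set.ncard {P : Finset (Finset (ℤ × ℤ)) | IsTiling n P}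

/-- the reflection -/
def sw (s : Finset (ℤ × ℤ)) : Finset (ℤ × ℤ) := s.map (Equiv.prodComm ℤ ℤ).toEmbedding

lemma mem_sw {s : Finset (ℤ × ℤ)} {a b : ℤ} : (a, b) ∈ sw s ↔ (b, a) ∈ s := by
  simp only [sw, Finset.mem_map_equiv, Equiv.prodComm_symm, Equiv.prodComm_apply, Prod.swap_prod_mk]

lemma sw_sw (s : Finset (ℤ × ℤ)) : sw (sw s) = s := by
  ext ⟨a, b⟩
  rw [mem_sw, mem_sw]

lemma mem_up {i j a b : ℤ} : (a, b) ∈ up i j ↔ (a = i ∧ b = j) ∨ (a = i + 1 ∧ b = j) ∨ (a = i ∧ b = j + 1) := by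
  simp only [up, Finset.mem_insert, Finset.mem_singleton, Prod.mk.injEq]

lemma mem_down {i j a b : ℤ} : (a, b) ∈ down i j ↔ (a = i + 1 ∧ b = j) ∨ (a = i ∧ b = j + 1) ∨ (a = i + 1 ∧ b = j + 1) := by
  simp only [down, Finset.mem_insert, Finset.mem_singleton, Prod.mk.injEq]

lemma sw_up (i j : ℤ) : sw (up i j) = up j i := by
  ext ⟨a, b⟩
  rw [mem_sw, mem_up, mem_up]
  omega

lemma sw_down (i j : ℤ) : sw (down i j) = down j i := by
  ext ⟨a, b⟩
  rw [mem_sw, mem_down, mem_down]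
  omega

def Sw (P : Finset (Finset (ℤ × ℤ))) : Finset (Finset (ℤ × ℤ)) := P.image sw

lemma mem_Sw {P : Finset (Finset (ℤ × ℤ))} {s : Finset (ℤ × ℤ)} : s ∈ Sw P ↔ sw s ∈ P := by
  simp only [Sw, Finset.mem_image]
  constructor
  · rintro ⟨t, ht, rfl⟩
    rwa [sw_sw]
  · intro h
    exact ⟨sw s, h, sw_sw s⟩

lemma Sw_Sw (P : Finset (Finset (ℤ × ℤ))) : Sw (Sw P) = P := by
  ext s
  rw [mem_Sw, mem_Sw, sw_sw]

lemma IsStone.sw {s : Finset (ℤ × ℤ)} (h : IsStone s) : IsStone (sw s) := by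
  obtain ⟨i, j, h | h⟩ := h
  · exact ⟨j, i, Or.inl (by rw [h, sw_up])⟩
  · exact ⟨j, i, Or.inr (by rw [h, sw_down])⟩

lemma IsTiling.Sw {n : ℕ} {P : Finset (Finset (ℤ × ℤ))} (h : IsTiling n P) : IsTiling n (Sw P) := by
  refine ⟨?_, ?_, ?_⟩
  · intro s hs
    have := (h.stone _ (mem_Sw.1 hs)).sw
    rwa [sw_sw] at this
  · rintro s hs ⟨a, b⟩ hc
    have h1 : (b, a) ∈ T n := h.sub _ (mem_Sw.1 hs) (by rw [mem_sw]; exact hc)
    rw [mem_T] at h1 ⊢
    simp only at h1 ⊢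
    omega
  · rintro ⟨a, b⟩ hc
    have hc' : (b, a) ∈ T n := by
      rw [mem_T] at hc ⊢
      simp only at hc ⊢
      omega
    obtain ⟨s, ⟨hs, hcs⟩, hu⟩ := h.cover _ hc'
    refine ⟨sw s, ⟨?_, ?_⟩, ?_⟩
    · rw [mem_Sw, sw_sw]; exact hs
    · rw [mem_sw]; exact hcs
    · rintro t ⟨ht, hct⟩
      have := hu (sw t) ⟨mem_Sw.1 ht, by rw [mem_sw]; exact hct⟩
      rw [← this, sw_sw]

/-- two members of a tiling with a common cell are equal -/
lemma IsTiling.eq {n : ℕ} {P : Finset (Finset (ℤ × ℤ))} (h : IsTiling n P) {s t : Finset (ℤ × ℤ)}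
    (hs : s ∈ P) (ht : t ∈ P) {c : ℤ × ℤ} (hcs : c ∈ s) (hct : c ∈ t) : s = t :=
  (h.cover c (h.sub s hs hcs)).unique ⟨hs, hcs⟩ ⟨ht, hct⟩

lemma no_fixed {n : ℕ} (hn : 3 ≤ n) {P : Finset (Finset (ℤ × ℤ))} (h : IsTiling n P) :
    Sw P ≠ P := by
  intro hfix
  have hn' : (3 : ℤ) ≤ n := by exact_mod_cast hn
  -- the corner
  obtain ⟨s0, ⟨hs0, hc0⟩, -⟩ := h.cover (0, 0) (by rw [mem_T]; simp only; omega)
  have e0 : s0 = up 0 0 := by
    obtain ⟨i, j, e | e⟩ := h.stone s0 hs0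
    · subst e
      have g1 := mem_T.1 (h.sub _ hs0 (mem_up.2 (Or.inl ⟨rfl, rfl⟩)))
      rw [mem_up] at hc0
      simp only at g1
      have : i = 0 ∧ j = 0 := by omega
      rw [this.1, this.2]
    · exfalso
      subst e
      have g1 := mem_T.1 (h.sub _ hs0 (mem_down.2 (Or.inl ⟨rfl, rfl⟩)))
      have g2 := mem_T.1 (h.sub _ hs0 (mem_down.2 (Or.inr (Or.inl ⟨rfl, rfl⟩))))
      rw [mem_down] at hc0
      simp only at g1 g2
      omega
  subst e0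
  -- the cell (1,1)
  obtain ⟨s1, ⟨hs1, hc1⟩, -⟩ := h.cover (1, 1) (by rw [mem_T]; simp only; omega)
  have hsym : sw s1 = s1 := by
    have h1 : sw s1 ∈ P := by rw [← mem_Sw, hfix]; exact hs1
    exact h.eq h1 hs1 (mem_sw.2 hc1) hc1
  have e1 : s1 = up 1 1 := by
    obtain ⟨i, j, e | e⟩ := h.stone s1 hs1
    · subst e
      rw [sw_up] at hsym
      have hk : (j, i) ∈ up i j := by rw [← hsym]; exact mem_up.2 (Or.inl ⟨rfl, rfl⟩)
      have hk2 : (j + 1, i) ∈ up i j := by rw [← hsym]; exact mem_up.2 (Or.inr (Or.inl ⟨rfl, rfl⟩))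
      have hk3 : (j, i + 1) ∈ up i j := by rw [← hsym]; exact mem_up.2 (Or.inr (Or.inr ⟨rfl, rfl⟩))
      rw [mem_up] at hc1 hk hk2 hk3
      have : i = 1 ∧ j = 1 := by omega
      rw [this.1, this.2]
    · exfalso
      subst e
      rw [sw_down] at hsym
      have hk : (j + 1, i) ∈ down i j := by rw [← hsym]; exact mem_down.2 (Or.inl ⟨rfl, rfl⟩)
      have hk2 : (j, i + 1) ∈ down i j := by
        rw [← hsym]; exact mem_down.2 (Or.inr (Or.inl ⟨rfl, rfl⟩))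
      have hk3 : (j + 1, i + 1) ∈ down i j := by
        rw [← hsym]; exact mem_down.2 (Or.inr (Or.inr ⟨rfl, rfl⟩))
      rw [mem_down] at hc1 hk hk2 hk3
      have h00 : i = 0 ∧ j = 0 := by omega
      have e3 : down i j = up 0 0 :=
        h.eq hs1 hs0 (c := (1, 0)) (mem_down.2 (by omega)) (mem_up.2 (by omega))
      have : ((1 : ℤ), (1 : ℤ)) ∈ up 0 0 := by rw [← e3]; exact mem_down.2 (by omega)
      rw [mem_up] at this
      omega
  subst e1
  -- the cell (2,0)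
  obtain ⟨s2, ⟨hs2, hc2⟩, -⟩ := h.cover (2, 0) (by rw [mem_T]; simp only; omega)
  have n0 : ∀ c : ℤ × ℤ, c ∈ s2 → c ∉ up 0 0 := by
    intro c hc hc'
    have := h.eq hs2 hs0 hc hc'
    rw [this, mem_up] at hc2
    omega
  have n1 : ∀ c : ℤ × ℤ, c ∈ s2 → c ∉ up 1 1 := by
    intro c hc hc'
    have := h.eq hs2 hs1 hc hc'
    rw [this, mem_up] at hc2
    omega
  obtain ⟨i, j, e | e⟩ := h.stone s2 hs2
  · subst e
    have g1 := mem_T.1 (h.sub _ hs2 (mem_up.2 (Or.inl ⟨rfl, rfl⟩)))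
    have g2 := mem_T.1 (h.sub _ hs2 (mem_up.2 (Or.inr (Or.inl ⟨rfl, rfl⟩))))
    have g3 := mem_T.1 (h.sub _ hs2 (mem_up.2 (Or.inr (Or.inr ⟨rfl, rfl⟩))))
    have a1 := n0 _ (mem_up.2 (Or.inl ⟨rfl, rfl⟩))
    have a3 := n1 _ (mem_up.2 (Or.inr (Or.inr ⟨rfl, rfl⟩)))
    rw [mem_up] at a1 a3 hc2
    simp only at g1 g2 g3
    omega
  · subst e
    have g1 := mem_T.1 (h.sub _ hs2 (mem_down.2 (Or.inl ⟨rfl, rfl⟩)))
    have g2 := mem_T.1 (h.sub _ hs2 (mem_down.2 (Or.inr (Or.inl ⟨rfl, rfl⟩))))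
    have a3 := n1 _ (mem_down.2 (Or.inr (Or.inr ⟨rfl, rfl⟩)))
    rw [mem_up] at a3
    rw [mem_down] at hc2
    simp only at g1 g2
    omega

lemma tilings_finite (n : ℕ) : {P : Finset (Finset (ℤ × ℤ)) | IsTiling n P}.Finite := by
  refine ((T n).powerset.powerset.finite_toSet).subset ?_
  intro P hP
  rw [Finset.mem_coe, Finset.mem_powerset]
  intro s hs
  exact Finset.mem_powerset.2 (hP.sub s hs)

theorem even_N {n : ℕ} (hn : 3 ≤ n) : Even (N n) := by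
  classical
  have hf := tilings_finite n
  unfold N
  rw [Set.ncard_eq_toFinset_card _ hf]
  have key : ∑ _P ∈ hf.toFinset, (1 : ZMod 2) = 0 := by
    refine Finset.sum_involution (fun P _ => Sw P) ?_ ?_ ?_ ?_
    · intro P _
      decide
    · intro P hP _
      rw [Set.Finite.mem_toFinset] at hP
      exact no_fixed hn hP
    · intro P hP
      rw [Set.Finite.mem_toFinset] at hP ⊢
      exact IsTiling.Sw hP
    · intro P _
      exact Sw_Sw P
  rw [Finset.sum_const, nsmul_eq_mul, mul_one] at key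
  exact (ZMod.natCast_eq_zero_iff_even).1 key

/-- For every `n ≥ 3` the number of tilings of `T_n` by stones is even (and the set of tilings is
finite for every `n`, so that the cardinality is the true one). -/
theorem result : (∀ n : ℕ, {P : Finset (Finset (ℤ × ℤ)) | IsTiling n P}.Finite) ∧
    ∀ n : ℕ, 3 ≤ n → Even (N n) :=
  ⟨tilings_finite, fun _ hn => even_N hn⟩

end Pool.Agent.Results.MP_966661_co.EvenCount
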